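import Pool.Agent.H29.RE.Defs

/-!
ROW Clo (Alekhnovich-Razborov closure; pure combinatorics; about 140 lines).
PROOF. For `T` with `2 |T| ≤ R` let `𝒞 T = {J | J.card ≤ R ∧ bd S J ⊆ T}`. If `J ∈ 𝒞 T` then `|J| ≤ |bd J| ≤ |T| ≤ R / 2`, so the union of two members has at most `R` elements and
`bd (J ∪ J') ⊆ bd J ∪ bd J' ⊆ T` (a variable in exactly one clause of `J ∪ J'`, say in a clause of `J`, is in exactly one clause of `J`): `𝒞 T` is closed under unions, contains `∅`, is finite;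
`Cl T` := the union of all members (or a member of maximal card: then every member is contained in it). `|Cl T| ≤ |T|`.
(2) let `T' ⊆ T ∪ S(Cl T)` (`S(J) = J.biUnion S`), `J ∈ 𝒞 T'`. Then `|J ∪ Cl T| ≤ R`. Let `v ∈ bd (J ∪ Cl T)`, `v ∈ S j`. If `j ∈ Cl T`: `v ∈ bd (Cl T) ⊆ T`. If `j ∈ J \ Cl T`: `v` is in no `S j'`, `j' ∈ Cl T`, so
`v ∉ S(Cl T)`, and `v ∈ bd J ⊆ T' ⊆ T ∪ S(Cl T)`, so `v ∈ T`. Hence `J ∪ Cl T ∈ 𝒞 T`, `J ⊆ Cl T`.
(3) `J ⊇ Cl T`, `|J| ≤ R`: induction on `|J \ Cl T|`. If `J = Cl T` take `Dom = ∅`. Otherwise `J ∉ 𝒞 T` (else `J ⊆ Cl T`), so there is `v ∈ bd J`, `v ∉ T`, `v ∈ S j`, `j ∈ J`. If `j ∈ Cl T` then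
`v ∈ bd (Cl T) ⊆ T`, contradiction; so `j ∈ J \ Cl T` and `v ∉ S(Cl T)`. Apply the induction hypothesis to `J.erase j ⊇ Cl T`: `Dom'`, `ρ'`; put `Dom = insert v Dom'`,
`ρ = Function.update ρ' v (σ j v + 1)`. For `j' ∈ J.erase j`, `j' ∉ Cl T` the variable `v' ∈ Dom' ∩ S j'` given by the induction is not `v` (`v ∉ S j'`), so `ρ v' = ρ' v'`.
-/

set_option autoImplicit false
open scoped Classical

namespace H29RE

private theorem clo_uniq {ι I : Type} {S : ι → Finset I} {J : Finset ι} {v : I} (hv : v ∈ bd S J) {j j' : ι}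
    (hj : j ∈ J) (hvj : v ∈ S j) (hj' : j' ∈ J) (hvj' : v ∈ S j') : j = j' := by
  unfold bd at hv
  rw [Finset.mem_filter] at hv
  have h := Finset.card_le_one.1 hv.2.le
  exact h j (Finset.mem_filter.2 ⟨hj, hvj⟩) j' (Finset.mem_filter.2 ⟨hj', hvj'⟩)

private theorem clo_mem {ι I : Type} {S : ι → Finset I} {J : Finset ι} {v : I} (hv : v ∈ bd S J) :
    ∃ j ∈ J, v ∈ S j := by
  unfold bd at hv
  rw [Finset.mem_filter, Finset.mem_biUnion] at hv
  exact hv.1

private theorem clo_mono {ι I : Type} {S : ι → Finset I} {J K : Finset ι} (hJK : J ⊆ K) {v : I} (hv : v ∈ bd S K) {j : ι}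
    (hj : j ∈ J) (hvj : v ∈ S j) : v ∈ bd S J := by
  unfold bd
  rw [Finset.mem_filter, Finset.mem_biUnion]
  refine ⟨⟨j, hj, hvj⟩, ?_⟩
  rw [Finset.card_eq_one]
  refine ⟨j, ?_⟩
  ext j'
  rw [Finset.mem_filter, Finset.mem_singleton]
  constructor
  · rintro ⟨h1, h2⟩
    exact clo_uniq hv (hJK h1) h2 (hJK hj) hvj
  · rintro rfl
    exact ⟨hj, hvj⟩

private theorem clo_union {ι I : Type} {S : ι → Finset I} {J K : Finset ι} {T : Finset I} (hJ : bd S J ⊆ T)
    (hK : bd S K ⊆ T) : bd S (J ∪ K) ⊆ T := by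
  intro v hv
  obtain ⟨j, hj, hvj⟩ := clo_mem hv
  rcases Finset.mem_union.1 hj with h | h
  · exact hJ (clo_mono Finset.subset_union_left hv h hvj)
  · exact hK (clo_mono Finset.subset_union_right hv h hvj)

private theorem clo_max {ι I : Type} [Fintype ι] (S : ι → Finset I) (R : ℕ)
    (hexp : ∀ J : Finset ι, J.card ≤ R → J.card ≤ (bd S J).card) (T : Finset I) :
    ∃ K : Finset ι, 2 * T.card ≤ R → K.card ≤ T.card ∧ bd S K ⊆ T ∧ ∀ J : Finset ι, J.card ≤ R → bd S J ⊆ T → J ⊆ K := by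
  by_cases hT : 2 * T.card ≤ R
  · obtain ⟨K, hK, hmax⟩ := Finset.exists_max_image
      ((Finset.univ : Finset (Finset ι)).filter (fun J => J.card ≤ R ∧ bd S J ⊆ T)) Finset.card
      ⟨∅, Finset.mem_filter.2 ⟨Finset.mem_univ _, by simp, by
        intro v hv
        obtain ⟨j, hj, _⟩ := clo_mem hv
        simp at hj⟩⟩
    rw [Finset.mem_filter] at hK
    have hKT : K.card ≤ T.card := le_trans (hexp K hK.2.1) (Finset.card_le_card hK.2.2)
    refine ⟨K, fun _ => ⟨hKT, hK.2.2, ?_⟩⟩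
    intro J hJR hJT
    have hJc : J.card ≤ T.card := le_trans (hexp J hJR) (Finset.card_le_card hJT)
    have hun : (J ∪ K).card ≤ R := by
      have := Finset.card_union_le J K
      omega
    have h1 := hmax (J ∪ K) (Finset.mem_filter.2 ⟨Finset.mem_univ _, hun, clo_union hJT hK.2.2⟩)
    have h2 : K = J ∪ K := Finset.eq_of_subset_of_card_le Finset.subset_union_right h1
    rw [h2]
    exact Finset.subset_union_left
  · exact ⟨∅, fun h => absurd h hT⟩

private theorem clo_three {ι I : Type} {S : ι → Finset I} {σ : ι → I → ZMod 2} {R : ℕ} {T : Finset I} {K : Finset ι}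
    (hKT : bd S K ⊆ T) (hmax : ∀ J : Finset ι, J.card ≤ R → bd S J ⊆ T → J ⊆ K) :
    ∀ (m : ℕ) (J : Finset ι), K ⊆ J → J.card ≤ R → J.card = m → ∃ (Dom : Finset I) (ρ : I → ZMod 2),
        (∀ v ∈ Dom, v ∉ T ∧ v ∉ K.biUnion S) ∧ ∀ j ∈ J, j ∉ K → ∃ v ∈ Dom, v ∈ S j ∧ ρ v ≠ σ j v := by
  intro m
  induction m with
  | zero =>
    intro J _ _ hJ0
    rw [Finset.card_eq_zero] at hJ0
    subst hJ0
    exact ⟨∅, 0, by simp, by simp⟩
  | succ m ih =>
    intro J hKJ hJR hJm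
    by_cases hbd : bd S J ⊆ T
    · have hJK := hmax J hJR hbd
      exact ⟨∅, 0, by simp, fun j hj hjK => absurd (hJK hj) hjK⟩
    · obtain ⟨v, hv, hvT⟩ := Finset.not_subset.1 hbd
      obtain ⟨j, hj, hvj⟩ := clo_mem hv
      have hjK : j ∉ K := fun h => hvT (hKT (clo_mono hKJ hv h hvj))
      obtain ⟨Dom, ρ, hD, hρ⟩ := ih (J.erase j) (Finset.subset_erase.2 ⟨hKJ, hjK⟩)
        (le_trans (Finset.card_le_card (Finset.erase_subset _ _)) hJR) (by rw [Finset.card_erase_of_mem hj]; omega)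
      refine ⟨insert v Dom, Function.update ρ v (σ j v + 1), ?_, ?_⟩
      · intro w hw
        rcases Finset.mem_insert.1 hw with rfl | hw
        · refine ⟨hvT, ?_⟩
          intro hwK
          obtain ⟨j', hj', hwj'⟩ := Finset.mem_biUnion.1 hwK
          have := clo_uniq hv hj hvj (hKJ hj') hwj'
          exact hjK (this ▸ hj')
        · exact hD w hw
      · intro j' hj' hj'K
        by_cases hjj : j' = j
        · subst hjj
          refine ⟨v, Finset.mem_insert_self _ _, hvj, ?_⟩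
          rw [Function.update_self]
          intro h
          have : (1 : ZMod 2) = 0 := by
            have h2 : σ j' v + 1 = σ j' v + 0 := by rw [h, add_zero]
            exact add_left_cancel h2
          exact one_ne_zero this
        · obtain ⟨w, hw, hwj, hne⟩ := hρ j' (Finset.mem_erase.2 ⟨hjj, hj'⟩) hj'K
          refine ⟨w, Finset.mem_insert_of_mem hw, hwj, ?_⟩
          have hwv : w ≠ v := by
            rintro rfl
            exact hjj (clo_uniq hv hj' hwj hj hvj)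
          rw [Function.update_of_ne hwv]
          exact hne

theorem clo_exists {ι I : Type} [Fintype ι] [Fintype I] (S : ι → Finset I) (σ : ι → I → ZMod 2) (R : ℕ)
    (hexp : ∀ J : Finset ι, J.card ≤ R → J.card ≤ (bd S J).card) :
    ∃ Cl : Finset I → Finset ι, ∀ T : Finset I, 2 * T.card ≤ R →
      (Cl T).card ≤ T.card ∧
      (∀ T' : Finset I, 2 * T'.card ≤ R → T' ⊆ T ∪ (Cl T).biUnion S → Cl T' ⊆ Cl T) ∧
      ∀ J : Finset ι, Cl T ⊆ J → J.card ≤ R → ∃ (Dom : Finset I) (ρ : I → ZMod 2),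
        (∀ v ∈ Dom, v ∉ T ∧ v ∉ (Cl T).biUnion S) ∧ ∀ j ∈ J, j ∉ Cl T → ∃ v ∈ Dom, v ∈ S j ∧ ρ v ≠ σ j v := by
  choose Cl hCl using clo_max S R hexp
  refine ⟨Cl, ?_⟩
  intro T hT
  obtain ⟨h1, h2, h3⟩ := hCl T hT
  refine ⟨h1, ?_, ?_⟩
  · intro T' hT' hsub
    obtain ⟨h1', h2', -⟩ := hCl T' hT'
    have hun : (Cl T' ∪ Cl T).card ≤ R := by
      have := Finset.card_union_le (Cl T') (Cl T)
      omega
    refine le_trans ?_ (h3 (Cl T' ∪ Cl T) hun ?_)
    · exact Finset.subset_union_left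
    · intro v hv
      by_cases hvK : ∃ j ∈ Cl T, v ∈ S j
      · obtain ⟨j, hj, hvj⟩ := hvK
        exact h2 (clo_mono Finset.subset_union_right hv hj hvj)
      · obtain ⟨j, hj, hvj⟩ := clo_mem hv
        rcases Finset.mem_union.1 hj with h | h
        · have hv' := hsub (h2' (clo_mono Finset.subset_union_left hv h hvj))
          rcases Finset.mem_union.1 hv' with h' | h'
          · exact h'
          · rw [Finset.mem_biUnion] at h'
            exact absurd h' hvK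
        · exact absurd ⟨j, h, hvj⟩ hvK
  · intro J hJ hJR
    exact clo_three h2 h3 J.card J hJ hJR rfl

end H29RE
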