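import Pool.Agent.H29.RE.Defs

/-!
ROW Loc (locality of irreducibility; about 100 lines).  Everything at the level of coefficient vectors.
`hB`: `B` only depends on the active variables in `T0` and on the variables outside the range of `z` (the dummy variables).
PROOF.
`loc_up` : let `c ∈ VJ B J`, `c t ≠ 0`; suppose there is no `t'` of larger rank with `c t' ≠ 0`. Substitute the constants `ρ v` for the variables `z v`, `v ∈ Dom`: for a point `x` let
`x' e = if ∃ v ∈ Dom, z v = e then ρ v else x e` (`z` injective: `x' (z v) = ρ v` for `v ∈ Dom`). The function `x ↦ ev c x'` is `ev c'` with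
`c' u = ∑ over t' with c t' ≠ 0, u = t' \ z(Dom), all z v ∈ t' (v ∈ Dom) have ρ v = 1, of c t'` (each monomial becomes `0` or the monomial `t' \ z(Dom)`, of smaller or equal rank: either `t'` is disjoint from
`z(Dom)` and unchanged, or its card drops and the rank drops by `hrank`). So `c' t = c t ≠ 0` (no variable of `t` is in `z(Dom)` as `Dom ∩ act t = ∅`; another `t'` with `t' \ z(Dom) = t` has larger card, so larger rank, so `c t' = 0`),
and `c' u = 0` for `u` of larger rank than `t`. `c' ∈ VJ B I`: for `x ∈ B ∩ Sat I`: `x' ∈ B` by `hB` (`x` and `x'` agree outside `z(Dom)` and `Dom ∩ T0 = ∅`), `x' ∈ Sat I` (`Dom ∩ S(I) = ∅`), and clauses of `J \ I` are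
satisfied at `x'`; so `ev c x' = 0`. This contradicts `irr (VJ B I) t`.
(Instead of writing `c'` by a formula you may choose `c'` with `ev c' = fun x => ev c x'`… the formula is better: you need its support.)
`loc_down`: `VJ B I ≤ VJ B J` for `I ⊆ J` (`Sat` is antitone), so `irr (VJ B J) t → irr (VJ B I) t`.
-/

set_option autoImplicit false
open scoped Classical

namespace H29RE

open H96RX

theorem VJ_mono {ι I E : Type} [Fintype E] (S : ι → Finset I) (σ : ι → I → ZMod 2) (z : I → E)
    (B : Set (E → ZMod 2)) {J J' : Finset ι} (h : J ⊆ J') : VJ S σ z B J ≤ VJ S σ z B J' := by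
  intro c hc x hx
  exact hc x ⟨hx.1, fun j hj => hx.2 j (h hj)⟩

theorem loc_down {ι I E : Type} [Fintype E] (rank : Finset E → ℕ) (S : ι → Finset I) (σ : ι → I → ZMod 2)
    (z : I → E) (B : Set (E → ZMod 2)) {J J' : Finset ι} (h : J ⊆ J') (t : Finset E)
    (ht : irr rank (VJ S σ z B J') t) : irr rank (VJ S σ z B J) t :=
  fun c hc hct => ht c (VJ_mono S σ z B h hc) hct

private theorem Loc_mon {E : Type} (D : Finset E) (r x : E → ZMod 2) (t : Finset E) :
    mon t (fun e => if e ∈ D then r e else x e)
      = (∏ e ∈ t.filter (fun e => e ∈ D), r e) * mon (t \ D) x := by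
  unfold mon
  rw [Finset.prod_ite]
  congr 1
  refine Finset.prod_congr ?_ (fun _ _ => rfl)
  ext e
  simp only [Finset.mem_filter, Finset.mem_sdiff]

theorem loc_up {ι I E : Type} [Fintype I] [Fintype E] (rank : Finset E → ℕ)
    (hrank : ∀ t t', t'.card < t.card → rank t' < rank t) (S : ι → Finset I)
    (σ : ι → I → ZMod 2) (z : I → E) (hz : Function.Injective z) (B : Set (E → ZMod 2)) (T0 : Finset I)
    (hB : ∀ x y : E → ZMod 2, (∀ v ∈ T0, x (z v) = y (z v)) → (∀ e, (∀ v, z v ≠ e) → x e = y e) → x ∈ B → y ∈ B)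
    (J0 J : Finset ι) (Dom : Finset I) (ρ : I → ZMod 2) (t : Finset E)
    (hDom : ∀ v ∈ Dom, v ∉ act z T0 t ∧ v ∉ J0.biUnion S)
    (hρ : ∀ j ∈ J, j ∉ J0 → ∃ v ∈ Dom, v ∈ S j ∧ ρ v ≠ σ j v)
    (ht : irr rank (VJ S σ z B J0) t) : irr rank (VJ S σ z B J) t := by
  intro c hc hct
  by_contra hcon
  have hbig : ∀ t', rank t < rank t' → c t' = 0 := by
    intro t' h1
    by_contra h2
    exact hcon ⟨t', h1, h2⟩
  set D : Finset E := Dom.image z with hD
  set r : E → ZMod 2 := Function.extend z ρ 0 with hr
  have hzD : ∀ v, z v ∈ D ↔ v ∈ Dom := by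
    intro v
    rw [hD, Finset.mem_image]
    constructor
    · rintro ⟨w, hw, hwv⟩
      rwa [← hz hwv]
    · intro hv
      exact ⟨v, hv, rfl⟩
  have hrz : ∀ v, r (z v) = ρ v := fun v => hz.extend_apply ρ 0 v
  let c' : Finset E → ZMod 2 := fun u =>
    ∑ t' : Finset E, if t' \ D = u then (∏ e ∈ t'.filter (fun e => e ∈ D), r e) * c t' else 0
  have hev : ∀ x : E → ZMod 2, ev c' x = ev c (fun e => if e ∈ D then r e else x e) := by
    intro x
    have h1 : ev c' x = ∑ u : Finset E, c' u * mon u x := rfl
    have h2 : ev c (fun e => if e ∈ D then r e else x e)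
        = ∑ t' : Finset E, c t' * mon t' (fun e => if e ∈ D then r e else x e) := rfl
    rw [h1, h2]
    have h3 : ∀ u : Finset E, c' u * mon u x = ∑ t' : Finset E,
        (if t' \ D = u then (∏ e ∈ t'.filter (fun e => e ∈ D), r e) * c t' * mon u x else 0) := by
      intro u
      show (∑ t' : Finset E, if t' \ D = u then (∏ e ∈ t'.filter (fun e => e ∈ D), r e) * c t' else 0)
        * mon u x = _
      rw [Finset.sum_mul]
      refine Finset.sum_congr rfl (fun t' _ => ?_)
      rw [ite_mul, zero_mul]
    rw [Finset.sum_congr rfl (fun u _ => h3 u), Finset.sum_comm]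
    refine Finset.sum_congr rfl (fun t' _ => ?_)
    rw [Finset.sum_ite_eq Finset.univ (t' \ D), if_pos (Finset.mem_univ _), Loc_mon]
    ring
  have htD : ∀ e ∈ t, e ∉ D := by
    intro e he heD
    rw [hD, Finset.mem_image] at heD
    obtain ⟨v, hv, rfl⟩ := heD
    apply (hDom v hv).1
    unfold act
    exact Finset.mem_union_left _ (Finset.mem_filter.mpr ⟨Finset.mem_univ _, he⟩)
  have ht1 : t \ D = t := by
    ext e
    rw [Finset.mem_sdiff]
    exact ⟨fun h => h.1, fun h => ⟨h, htD e h⟩⟩
  have ht2 : t.filter (fun e => e ∈ D) = ∅ := by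
    rw [Finset.filter_eq_empty_iff]
    exact fun e he => htD e he
  have hc't : c' t = c t := by
    show (∑ t' : Finset E, if t' \ D = t then (∏ e ∈ t'.filter (fun e => e ∈ D), r e) * c t' else 0) = c t
    rw [Finset.sum_eq_single t]
    · rw [if_pos ht1, ht2, Finset.prod_empty, one_mul]
    · intro t' _ hne
      by_cases h1 : t' \ D = t
      · rw [if_pos h1]
        have h2 : t ⊆ t' := by
          rw [← h1]
          exact Finset.sdiff_subset
        have h3 : t.card < t'.card := Finset.card_lt_card (Finset.ssubset_iff_subset_ne.mpr ⟨h2, Ne.symm hne⟩)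
        rw [hbig t' (hrank t' t h3), mul_zero]
      · rw [if_neg h1]
    · intro h
      exact absurd (Finset.mem_univ _) h
  have hmem : c' ∈ VJ S σ z B J0 := by
    intro x hx
    have h0 : ev c (fun e => if e ∈ D then r e else x e) = 0 := by
      refine hc (fun e => if e ∈ D then r e else x e) ⟨?_, ?_⟩
      · refine hB x _ (fun v hv => ?_) (fun e he => ?_) hx.1
        · have h1 : v ∉ Dom := by
            intro h2
            apply (hDom v h2).1
            unfold act
            exact Finset.mem_union_right _ hv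
          show x (z v) = if z v ∈ D then r (z v) else x (z v)
          rw [if_neg (fun h => h1 ((hzD v).mp h))]
        · show x e = if e ∈ D then r e else x e
          rw [if_neg]
          intro h
          rw [hD, Finset.mem_image] at h
          obtain ⟨v, _, hv⟩ := h
          exact he v hv
      · intro j hj
        by_cases hj0 : j ∈ J0
        · obtain ⟨v, hv, hne⟩ := hx.2 j hj0
          refine ⟨v, hv, ?_⟩
          have h1 : v ∉ Dom := by
            intro h2
            exact (hDom v h2).2 (Finset.mem_biUnion.mpr ⟨j, hj0, hv⟩)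
          show (if z v ∈ D then r (z v) else x (z v)) ≠ σ j v
          rw [if_neg (fun h => h1 ((hzD v).mp h))]
          exact hne
        · obtain ⟨v, hv, hvS, hne⟩ := hρ j hj hj0
          refine ⟨v, hvS, ?_⟩
          show (if z v ∈ D then r (z v) else x (z v)) ≠ σ j v
          rw [if_pos ((hzD v).mpr hv), hrz v]
          exact hne
    rw [hev x]
    exact h0
  obtain ⟨u, hu, hcu⟩ := ht c' hmem (by rw [hc't]; exact hct)
  have hex : ∃ t', t' \ D = u ∧ c t' ≠ 0 := by
    by_contra h1
    push Not at h1
    apply hcu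
    show (∑ t' : Finset E, if t' \ D = u then (∏ e ∈ t'.filter (fun e => e ∈ D), r e) * c t' else 0) = 0
    refine Finset.sum_eq_zero (fun t' _ => ?_)
    by_cases h2 : t' \ D = u
    · rw [if_pos h2, h1 t' h2, mul_zero]
    · rw [if_neg h2]
  obtain ⟨t', h1, h2⟩ := hex
  refine h2 (hbig t' ?_)
  by_cases h3 : u = t'
  · rwa [← h3]
  · have h4 : u ⊆ t' := by
      rw [← h1]
      exact Finset.sdiff_subset
    exact lt_trans hu (hrank t' u (Finset.card_lt_card (Finset.ssubset_iff_subset_ne.mpr ⟨h4, h3⟩)))

end H29RE
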