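import Pool.Agent.H29.RE.Defs

/-!
ROW NF (normal forms modulo a subspace; pure linear algebra; about 100 lines).  `K` finite, `rank : K → ℕ` injective, `V` a subspace of `K → ZMod 2`.
`Irr = {c | ∀ t, c t ≠ 0 → irr rank V t}` is a subspace.
PROOF.
`irr_disj`: a nonzero `c ∈ V` has a `t` with `c t ≠ 0` of maximal rank (`Finset.exists_max_image`); it is not irreducible.
`nf_exists`: (A) for every `t` there is `d ∈ V` such that `e_t - d` (`e_t = Pi.single t 1`) is supported on irreducible `t'` with `rank t' ≤ rank t`: strong induction on `rank t`.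
If `t` is irreducible take `d = 0`. Otherwise there is `c ∈ V` with `c t ≠ 0` (so `c t = 1` in `ZMod 2`) and `c t' = 0` for all `t'` of larger rank: then `e_t - c = ∑_{t' : rank t' < rank t} (-c t') e_t'`
(ranks are injective), apply the induction hypothesis to each of these `t'` and add up. (B) choose such a `d_t` for every `t` and put
`NF c = ∑ t, c t • (e_t - d_t)` (a linear map: `Fintype.linearCombination` or `∑ t, (LinearMap.proj t).smulRight (e_t - d_t)`). Then `c - NF c = ∑ c t • d_t ∈ V`;
`NF c` is supported on irreducible elements of rank ≤ some `t'` with `c t' ≠ 0`; for `c ∈ V`: `NF c = c - (c - NF c) ∈ V` and in `Irr`, so `NF c = 0` by `irr_disj`.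
-/

set_option autoImplicit false
open scoped Classical

namespace H29RE

theorem irr_disj {K : Type} [Fintype K] (rank : K → ℕ) (V : Submodule (ZMod 2) (K → ZMod 2)) (c : K → ZMod 2)
    (hc : c ∈ V) (hi : ∀ t, c t ≠ 0 → irr rank V t) : c = 0 := by
  by_contra h0
  have h1 : ∃ t, c t ≠ 0 := by
    by_contra h2
    push Not at h2
    exact h0 (funext h2)
  obtain ⟨t0, ht0⟩ := h1
  obtain ⟨t, ht, hmax⟩ := Finset.exists_max_image (Finset.univ.filter (fun t => c t ≠ 0)) rank
    ⟨t0, by simpa using ht0⟩
  have ht' : c t ≠ 0 := (Finset.mem_filter.mp ht).2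
  obtain ⟨t', h3, h4⟩ := hi t ht' c hc ht'
  have h5 := hmax t' (by simpa using h4)
  omega

private theorem NF_red {K : Type} [Fintype K] (rank : K → ℕ) (hr : Function.Injective rank)
    (V : Submodule (ZMod 2) (K → ZMod 2)) : ∀ (n : ℕ) (t : K), rank t = n →
    ∃ d ∈ V, ∀ s, ((Pi.single t 1 : K → ZMod 2) - d) s ≠ 0 → irr rank V s ∧ rank s ≤ rank t := by
  intro n
  induction n using Nat.strong_induction_on with
  | _ n ih =>
    intro t htn
    by_cases hirr : irr rank V t
    · refine ⟨0, V.zero_mem, fun s hs => ?_⟩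
      have hst : s = t := by
        by_contra hne
        apply hs
        rw [sub_zero, Pi.single_eq_of_ne hne]
      rw [hst]
      exact ⟨hirr, le_rfl⟩
    · unfold irr at hirr
      push Not at hirr
      obtain ⟨c, hcV, hct, hc0⟩ := hirr
      have hct1 : c t = 1 := by
        have h : ∀ a : ZMod 2, a ≠ 0 → a = 1 := by decide
        exact h _ hct
      have hch : ∀ t', ∃ d, rank t' < rank t → (d ∈ V ∧
          ∀ s, ((Pi.single t' 1 : K → ZMod 2) - d) s ≠ 0 → irr rank V s ∧ rank s ≤ rank t') := by
        intro t'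
        by_cases h : rank t' < rank t
        · obtain ⟨d, hd1, hd2⟩ := ih (rank t') (by omega) t' rfl
          exact ⟨d, fun _ => ⟨hd1, hd2⟩⟩
        · exact ⟨0, fun h' => absurd h' h⟩
      choose D hD using hch
      have key : (Pi.single t 1 : K → ZMod 2) - c =
          ∑ t' ∈ Finset.univ.filter (fun t' => rank t' < rank t),
            (-(c t')) • (Pi.single t' 1 : K → ZMod 2) := by
        funext s
        rw [Finset.sum_apply]
        have h1 : ∀ t' ∈ Finset.univ.filter (fun t' => rank t' < rank t),
            ((-(c t')) • (Pi.single t' 1 : K → ZMod 2)) s = if t' = s then -(c s) else 0 := by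
          intro t' _
          rw [Pi.smul_apply, Pi.single_apply]
          by_cases h : s = t'
          · subst h
            simp
          · rw [if_neg h, if_neg (fun h' => h h'.symm), smul_zero]
        rw [Finset.sum_congr rfl h1, Finset.sum_ite_eq', Pi.sub_apply]
        by_cases hs : s = t
        · subst hs
          rw [Pi.single_eq_same, hct1, if_neg (by simp), sub_self]
        · rw [Pi.single_eq_of_ne hs]
          by_cases h2 : rank s < rank t
          · rw [if_pos (by simpa using h2), zero_sub]
          · rw [if_neg (by simpa using h2)]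
            have h3 : rank t < rank s := by
              have h4 : rank s ≠ rank t := fun h => hs (hr h)
              omega
            rw [hc0 s h3, sub_zero]
      refine ⟨c + ∑ t' ∈ Finset.univ.filter (fun t' => rank t' < rank t), (-(c t')) • D t', ?_, ?_⟩
      · refine V.add_mem hcV (V.sum_mem fun t' ht' => V.smul_mem _ (hD t' ?_).1)
        exact (Finset.mem_filter.mp ht').2
      · intro s hs
        have h5 : (Pi.single t 1 : K → ZMod 2) -
            (c + ∑ t' ∈ Finset.univ.filter (fun t' => rank t' < rank t), (-(c t')) • D t') =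
            ∑ t' ∈ Finset.univ.filter (fun t' => rank t' < rank t),
              (-(c t')) • ((Pi.single t' 1 : K → ZMod 2) - D t') := by
          rw [← sub_sub, key, ← Finset.sum_sub_distrib]
          exact Finset.sum_congr rfl fun t' _ => (smul_sub _ _ _).symm
        rw [h5, Finset.sum_apply] at hs
        obtain ⟨t', ht', h6⟩ := Finset.exists_ne_zero_of_sum_ne_zero hs
        have h7 : rank t' < rank t := (Finset.mem_filter.mp ht').2
        have h8 : ((Pi.single t' 1 : K → ZMod 2) - D t') s ≠ 0 := by
          intro h9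
          apply h6
          rw [Pi.smul_apply, h9, smul_zero]
        obtain ⟨h10, h11⟩ := (hD t' h7).2 s h8
        exact ⟨h10, by omega⟩

theorem nf_exists {K : Type} [Fintype K] (rank : K → ℕ) (hr : Function.Injective rank)
    (V : Submodule (ZMod 2) (K → ZMod 2)) :
    ∃ NF : (K → ZMod 2) →ₗ[ZMod 2] (K → ZMod 2), (∀ c, c - NF c ∈ V) ∧ (∀ c ∈ V, NF c = 0) ∧
      (∀ c t, NF c t ≠ 0 → irr rank V t) ∧ (∀ c t, NF c t ≠ 0 → ∃ t', rank t ≤ rank t' ∧ c t' ≠ 0) := by
  choose D hD1 hD2 using fun t => NF_red rank hr V (rank t) t rfl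
  have hNF : ∀ c : K → ZMod 2,
      (∑ t, (LinearMap.proj t : (K → ZMod 2) →ₗ[ZMod 2] ZMod 2).smulRight
        ((Pi.single t 1 : K → ZMod 2) - D t)) c =
      ∑ t, c t • ((Pi.single t 1 : K → ZMod 2) - D t) := by
    intro c
    rw [LinearMap.sum_apply]
    rfl
  have hc1 : ∀ c : K → ZMod 2, c = ∑ t, c t • (Pi.single t 1 : K → ZMod 2) := by
    intro c
    funext s
    rw [Finset.sum_apply]
    have h1 : ∀ t ∈ (Finset.univ : Finset K), (c t • (Pi.single t 1 : K → ZMod 2)) s =
        if t = s then c s else 0 := by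
      intro t _
      rw [Pi.smul_apply, Pi.single_apply]
      by_cases h : s = t
      · subst h
        simp
      · rw [if_neg h, if_neg (fun h' => h h'.symm), smul_zero]
    rw [Finset.sum_congr rfl h1, Finset.sum_ite_eq', if_pos (Finset.mem_univ s)]
  have hmem : ∀ c : K → ZMod 2,
      c - ∑ t, c t • ((Pi.single t 1 : K → ZMod 2) - D t) ∈ V := by
    intro c
    have h1 : c - ∑ t, c t • ((Pi.single t 1 : K → ZMod 2) - D t) = ∑ t, c t • D t := by
      have h2 : ∑ t, c t • ((Pi.single t 1 : K → ZMod 2) - D t) =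
          ∑ t, c t • (Pi.single t 1 : K → ZMod 2) - ∑ t, c t • D t := by
        rw [← Finset.sum_sub_distrib]
        exact Finset.sum_congr rfl fun t _ => smul_sub _ _ _
      rw [h2, ← hc1 c, sub_sub_cancel]
    rw [h1]
    exact V.sum_mem fun t _ => V.smul_mem _ (hD1 t)
  have hsupp : ∀ (c : K → ZMod 2) (s : K),
      (∑ t, c t • ((Pi.single t 1 : K → ZMod 2) - D t)) s ≠ 0 →
      irr rank V s ∧ ∃ t', rank s ≤ rank t' ∧ c t' ≠ 0 := by
    intro c s hs
    rw [Finset.sum_apply] at hs
    obtain ⟨t', _, h6⟩ := Finset.exists_ne_zero_of_sum_ne_zero hs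
    rw [Pi.smul_apply, smul_eq_mul] at h6
    obtain ⟨h7, h8⟩ := hD2 t' s (right_ne_zero_of_mul h6)
    exact ⟨h7, t', h8, left_ne_zero_of_mul h6⟩
  refine ⟨∑ t, (LinearMap.proj t : (K → ZMod 2) →ₗ[ZMod 2] ZMod 2).smulRight
        ((Pi.single t 1 : K → ZMod 2) - D t), ?_, ?_, ?_, ?_⟩
  · intro c
    rw [hNF]
    exact hmem c
  · intro c hc
    rw [hNF]
    refine irr_disj rank V _ ?_ (fun t ht => (hsupp c t ht).1)
    have h := V.sub_mem hc (hmem c)
    rw [sub_sub_cancel] at h
    exact h
  · intro c t ht
    rw [hNF] at ht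
    exact (hsupp c t ht).1
  · intro c t ht
    rw [hNF] at ht
    exact (hsupp c t ht).2

/-- the normal form is determined by its properties -/
theorem nf_unique {K : Type} [Fintype K] (rank : K → ℕ) (V : Submodule (ZMod 2) (K → ZMod 2)) (c d e : K → ZMod 2)
    (hd : c - d ∈ V) (he : c - e ∈ V) (hdi : ∀ t, d t ≠ 0 → irr rank V t) (hei : ∀ t, e t ≠ 0 → irr rank V t) :
    d = e := by
  have h1 : d - e ∈ V := by
    have h := V.sub_mem he hd
    rw [sub_sub_sub_cancel_left] at h
    exact h
  have h2 : d - e = 0 := by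
    refine irr_disj rank V _ h1 fun t ht => ?_
    by_cases h3 : d t = 0
    · refine hei t fun h4 => ht ?_
      rw [Pi.sub_apply, h3, h4, sub_zero]
    · exact hdi t h3
  exact sub_eq_zero.mp h2

theorem rank_exists (E : Type) [Fintype E] :
    ∃ rank : Finset E → ℕ, Function.Injective rank ∧ ∀ t t', t'.card < t.card → rank t' < rank t := by
  have hn : 0 < Fintype.card (Finset E) := Fintype.card_pos
  refine ⟨fun t => t.card * Fintype.card (Finset E) + (Fintype.equivFin (Finset E) t : ℕ), ?_, ?_⟩
  · intro t t' h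
    have h1 : ∀ s : Finset E, (s.card * Fintype.card (Finset E) +
        (Fintype.equivFin (Finset E) s : ℕ)) % Fintype.card (Finset E) =
        (Fintype.equivFin (Finset E) s : ℕ) := by
      intro s
      rw [Nat.add_comm, Nat.add_mul_mod_self_right]
      exact Nat.mod_eq_of_lt (Fintype.equivFin (Finset E) s).2
    have h2 : (Fintype.equivFin (Finset E) t : ℕ) = (Fintype.equivFin (Finset E) t' : ℕ) := by
      rw [← h1 t, ← h1 t']
      exact congrArg (· % Fintype.card (Finset E)) h
    exact (Fintype.equivFin (Finset E)).injective (Fin.ext h2)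
  · intro t t' h
    have h1 := (Fintype.equivFin (Finset E) t').2
    have h2 : (t'.card + 1) * Fintype.card (Finset E) ≤ t.card * Fintype.card (Finset E) :=
      Nat.mul_le_mul_right _ h
    rw [Nat.add_mul, one_mul] at h2
    show t'.card * Fintype.card (Finset E) + (Fintype.equivFin (Finset E) t' : ℕ) <
      t.card * Fintype.card (Finset E) + (Fintype.equivFin (Finset E) t : ℕ)
    omega

end H29RE
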