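import Pool.Agent.H29.RE.Defs
import Pool.Agent.H29.RE.NF

/-!
ROW Sup (two cylinder arguments; about 110 lines).  `hB` as in row Loc.  `U = T0 ∪ J.biUnion S` (active variables on which `B ∩ Sat J` depends).
PROOF.
`nf_supp`: `d` is supported on irreducible monomials and `e_t - d ∈ VJ B J` (`e_t = Pi.single t 1`). Suppose `d t' ≠ 0` and `z v ∈ t'`, `z v ∉ t`, `v ∉ T0`, `v ∉ J.biUnion S`. Substituting `0` for the variable `z v`:
for `x ∈ B ∩ Sat J` the point `x0 = Function.update x (z v) 0` is also in `B ∩ Sat J` (`hB`, `z` injective). For a coefficient vector `c` let `c0 u = if z v ∈ u then 0 else c u`; then `ev c0 x = ev c x0`. So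
`(e_t - d)0 = e_t - d0 ∈ VJ B J`, and `d - d0 = (e_t - d0) - (e_t - d) ∈ VJ B J` is supported on irreducible monomials, hence `0` by `irr_disj`; but `(d - d0) t' = d t' ≠ 0`. Contradiction.
`group_mem`: `c ∈ VJ B J`; for `u : Finset I` let `c_u t = if act z ∅ t \ (T0 ∪ J.biUnion S) = u then c t else 0`. Claim `c_u ∈ VJ B J`. Fix `x ∈ B ∩ Sat J`. For `w : Finset I` (disjoint from `U`) let
`x_w e = if ∃ v ∉ U, z v = e then (if ∃ v ∈ w, z v = e then 1 else 0) else x e`; `x_w ∈ B ∩ Sat J`. Let `F_u = ∑ t with act z ∅ t \ U = u, c t * ∏ e ∈ t not of the form z v with v ∉ U, x e`. Then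
`0 = ev c x_w = ∑_{u ⊆ w} F_u` for all `w` disjoint from `U`; by strong induction on `u` (`Finset.strongInduction`) all `F_u = 0` (for `u` disjoint from `U`; otherwise the sum is empty).
`ev c_u x = F_u * ∏ v ∈ u, x (z v) = 0`.
-/

set_option autoImplicit false
open scoped Classical

namespace H29RE

open H96RX

private theorem Sup_mem {ι I E : Type} [Fintype E] (S : ι → Finset I) (σ : ι → I → ZMod 2) (z : I → E)
    (B : Set (E → ZMod 2)) (J : Finset ι) (c : Finset E → ZMod 2) :
    c ∈ VJ S σ z B J ↔ ∀ x ∈ B ∩ Sat S σ z J, ∑ t : Finset E, c t * mon t x = 0 := Iff.rfl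

private theorem Sup_pt {ι I E : Type} (S : ι → Finset I) (σ : ι → I → ZMod 2) (z : I → E)
    (B : Set (E → ZMod 2)) (T0 : Finset I)
    (hB : ∀ x y : E → ZMod 2, (∀ v ∈ T0, x (z v) = y (z v)) → (∀ e, (∀ v, z v ≠ e) → x e = y e) → x ∈ B → y ∈ B)
    (J : Finset ι) (x y : E → ZMod 2) (h1 : ∀ v ∈ T0 ∪ J.biUnion S, x (z v) = y (z v))
    (h2 : ∀ e, (∀ v, z v ≠ e) → x e = y e) (hx : x ∈ B ∩ Sat S σ z J) : y ∈ B ∩ Sat S σ z J := by
  refine ⟨hB x y (fun v hv => h1 v (Finset.mem_union_left _ hv)) h2 hx.1, fun j hj => ?_⟩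
  obtain ⟨v, hv, h⟩ := hx.2 j hj
  refine ⟨v, hv, ?_⟩
  rw [← h1 v (Finset.mem_union_right _ (Finset.mem_biUnion.2 ⟨j, hj, hv⟩))]
  exact h

theorem nf_supp {ι I E : Type} [Fintype I] [Fintype E] (rank : Finset E → ℕ) (S : ι → Finset I)
    (σ : ι → I → ZMod 2) (z : I → E) (hz : Function.Injective z) (B : Set (E → ZMod 2)) (T0 : Finset I)
    (hB : ∀ x y : E → ZMod 2, (∀ v ∈ T0, x (z v) = y (z v)) → (∀ e, (∀ v, z v ≠ e) → x e = y e) → x ∈ B → y ∈ B)
    (J : Finset ι) (t : Finset E) (d : Finset E → ZMod 2) (hd : Pi.single t 1 - d ∈ VJ S σ z B J)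
    (hi : ∀ t', d t' ≠ 0 → irr rank (VJ S σ z B J) t') :
    ∀ t', d t' ≠ 0 → act z T0 t' ⊆ act z T0 t ∪ J.biUnion S := by
  intro t' ht' v hv
  by_contra hnot
  rw [Finset.mem_union, not_or] at hnot
  obtain ⟨hn1, hn2⟩ := hnot
  have hv' : z v ∈ t' := by
    rw [act, Finset.mem_union] at hv
    rcases hv with h | h
    · exact (Finset.mem_filter.1 h).2
    · exact absurd (Finset.mem_union_right _ h) hn1
  have hvt : z v ∉ t := fun h =>
    hn1 (Finset.mem_union_left _ (Finset.mem_filter.2 ⟨Finset.mem_univ _, h⟩))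
  have hvT : v ∉ T0 := fun h => hn1 (Finset.mem_union_right _ h)
  obtain ⟨d0, hd0⟩ : ∃ d0 : Finset E → ZMod 2, ∀ u, d0 u = if z v ∈ u then 0 else d u :=
    ⟨_, fun _ => rfl⟩
  have hmem : (Pi.single t 1 - d0 : Finset E → ZMod 2) ∈ VJ S σ z B J := by
    rw [Sup_mem]
    intro x hx
    have hx0 : Function.update x (z v) 0 ∈ B ∩ Sat S σ z J := by
      refine Sup_pt S σ z B T0 hB J x _ ?_ ?_ hx
      · intro v' hv1
        have hne : z v' ≠ z v := by
          intro h
          have h3 := hz h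
          rw [h3] at hv1
          rcases Finset.mem_union.1 hv1 with h4 | h4
          · exact hvT h4
          · exact hn2 h4
        rw [Function.update_of_ne hne]
      · intro e he
        rw [Function.update_of_ne (fun h => he v h.symm)]
    have h1 := (Sup_mem S σ z B J _).1 hd _ hx0
    rw [← h1]
    refine Finset.sum_congr rfl fun u _ => ?_
    rw [Pi.sub_apply, Pi.sub_apply, hd0]
    by_cases hu : z v ∈ u
    · have hut : u ≠ t := fun h => hvt (h ▸ hu)
      have h2 : mon u (Function.update x (z v) 0) = 0 := by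
        unfold mon
        exact Finset.prod_eq_zero hu (Function.update_self _ _ _)
      rw [Pi.single_eq_of_ne hut, if_pos hu, sub_zero, zero_mul, h2, mul_zero]
    · rw [if_neg hu]
      have h2 : mon u (Function.update x (z v) 0) = mon u x := by
        unfold mon
        refine Finset.prod_congr rfl fun e he => ?_
        have hne : e ≠ z v := fun h => hu (by rw [← h]; exact he)
        rw [Function.update_of_ne hne]
      rw [h2]
  have h2 : d - d0 ∈ VJ S σ z B J := by
    have h := Submodule.sub_mem _ hmem hd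
    rwa [sub_sub_sub_cancel_left] at h
  have h3 : d - d0 = 0 := by
    refine irr_disj rank _ _ h2 fun s hs => hi s fun h4 => hs ?_
    rw [Pi.sub_apply, hd0, h4]
    split_ifs <;> simp
  have h4 := congrFun h3 t'
  rw [Pi.sub_apply, hd0, if_pos hv', sub_zero] at h4
  exact ht' h4

theorem group_mem {ι I E : Type} [Fintype I] [Fintype E] (S : ι → Finset I)
    (σ : ι → I → ZMod 2) (z : I → E) (hz : Function.Injective z) (B : Set (E → ZMod 2)) (T0 : Finset I)
    (hB : ∀ x y : E → ZMod 2, (∀ v ∈ T0, x (z v) = y (z v)) → (∀ e, (∀ v, z v ≠ e) → x e = y e) → x ∈ B → y ∈ B)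
    (J : Finset ι) (c : Finset E → ZMod 2) (hc : c ∈ VJ S σ z B J) (u : Finset I) :
    (fun t => if act z ∅ t \ (T0 ∪ J.biUnion S) = u then c t else 0) ∈ VJ S σ z B J := by
  obtain ⟨U, hU⟩ : ∃ U : Finset I, U = T0 ∪ J.biUnion S := ⟨_, rfl⟩
  rw [← hU]
  obtain ⟨q, hq⟩ : ∃ q : Finset E → Finset I, ∀ t, q t = act z ∅ t \ U := ⟨_, fun _ => rfl⟩
  have hqm : ∀ t v, v ∈ q t ↔ z v ∈ t ∧ v ∉ U := by
    intro t v
    rw [hq, Finset.mem_sdiff, act, Finset.union_empty, Finset.mem_filter]
    exact ⟨fun h => ⟨h.1.2, h.2⟩, fun h => ⟨⟨Finset.mem_univ _, h.1⟩, h.2⟩⟩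
  have hfun : (fun t => if act z ∅ t \ U = u then c t else 0) =
      (fun t => if q t = u then c t else 0 : Finset E → ZMod 2) := by
    funext t
    rw [hq]
  rw [hfun, Sup_mem]
  intro x hx
  obtain ⟨R, hR⟩ : ∃ R : Finset E → ZMod 2, ∀ t, R t =
      ∏ e ∈ t.filter (fun e => ¬ ∃ v, v ∉ U ∧ z v = e), x e := ⟨_, fun _ => rfl⟩
  -- values of monomials at modified points
  have hsplit : ∀ (y : E → ZMod 2) (t : Finset E),
      (∀ e, (¬ ∃ v, v ∉ U ∧ z v = e) → y e = x e) → mon t y = R t * ∏ v ∈ q t, y (z v) := by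
    intro y t hy
    have h1 : mon t y = (∏ e ∈ t.filter (fun e => ¬ ∃ v, v ∉ U ∧ z v = e), y e) *
        ∏ e ∈ t.filter (fun e => ∃ v, v ∉ U ∧ z v = e), y e := by
      unfold mon
      rw [mul_comm]
      exact (Finset.prod_filter_mul_prod_filter_not t (fun e => ∃ v, v ∉ U ∧ z v = e) _).symm
    have h2 : t.filter (fun e => ∃ v, v ∉ U ∧ z v = e) = (q t).image z := by
      ext e
      rw [Finset.mem_filter, Finset.mem_image]
      constructor
      · rintro ⟨h3, v, h4, h5⟩
        exact ⟨v, (hqm t v).2 ⟨h5 ▸ h3, h4⟩, h5⟩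
      · rintro ⟨v, h3, h4⟩
        exact ⟨h4 ▸ ((hqm t v).1 h3).1, v, ((hqm t v).1 h3).2, h4⟩
    rw [h1, h2, Finset.prod_image (fun a _ b _ h => hz h), hR]
    have h6 : (∏ e ∈ t.filter (fun e => ¬ ∃ v, v ∉ U ∧ z v = e), y e) =
        ∏ e ∈ t.filter (fun e => ¬ ∃ v, v ∉ U ∧ z v = e), x e :=
      Finset.prod_congr rfl fun e he => hy e (Finset.mem_filter.1 he).2
    rw [h6]
  -- the sums over all `t` with `q t ⊆ w`
  have hw : ∀ w : Finset I, ∑ t ∈ Finset.univ.filter (fun t => q t ⊆ w), c t * R t = 0 := by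
    intro w
    obtain ⟨y, hy⟩ : ∃ y : E → ZMod 2, ∀ e, y e =
        if ∃ v, v ∉ U ∧ z v = e then (if ∃ v ∈ w, z v = e then 1 else 0) else x e :=
      ⟨_, fun _ => rfl⟩
    have hyB : y ∈ B ∩ Sat S σ z J := by
      refine Sup_pt S σ z B T0 hB J x y ?_ ?_ hx
      · intro v hv
        rw [← hU] at hv
        have h1 : ¬ ∃ v', v' ∉ U ∧ z v' = z v := by
          rintro ⟨v', h2, h3⟩
          exact h2 (hz h3 ▸ hv)
        rw [hy, if_neg h1]
      · intro e he
        have h1 : ¬ ∃ v', v' ∉ U ∧ z v' = e := by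
          rintro ⟨v', _, h3⟩
          exact he v' h3
        rw [hy, if_neg h1]
    have h1 := (Sup_mem S σ z B J c).1 hc y hyB
    rw [← h1, Finset.sum_filter]
    refine Finset.sum_congr rfl fun t _ => ?_
    rw [hsplit y t (fun e he => by rw [hy, if_neg he])]
    have hyv : ∀ v ∈ q t, y (z v) = if v ∈ w then 1 else 0 := by
      intro v hv
      have h2 : ∃ v', v' ∉ U ∧ z v' = z v := ⟨v, ((hqm t v).1 hv).2, rfl⟩
      rw [hy, if_pos h2]
      by_cases h3 : v ∈ w
      · rw [if_pos h3, if_pos ⟨v, h3, rfl⟩]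
      · rw [if_neg h3, if_neg]
        rintro ⟨v', h4, h5⟩
        exact h3 (hz h5 ▸ h4)
    by_cases hs : q t ⊆ w
    · rw [if_pos hs, Finset.prod_eq_one (fun v hv => by rw [hyv v hv, if_pos (hs hv)]), mul_one]
    · obtain ⟨v, hv, hvw⟩ := Finset.not_subset.1 hs
      rw [if_neg hs, Finset.prod_eq_zero hv (by rw [hyv v hv, if_neg hvw]), mul_zero, mul_zero]
  have hF : ∀ w : Finset I, ∑ t ∈ Finset.univ.filter (fun t => q t = w), c t * R t = 0 := by
    intro w
    induction w using Finset.strongInduction with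
    | H w ih =>
      have h1 := hw w
      have h2 : Finset.univ.filter (fun t => q t ⊆ w) =
          Finset.univ.filter (fun t => q t ⊂ w) ∪ Finset.univ.filter (fun t => q t = w) := by
        ext t
        simp only [Finset.mem_filter, Finset.mem_univ, true_and, Finset.mem_union]
        constructor
        · intro h
          by_cases h3 : q t = w
          · exact Or.inr h3
          · exact Or.inl (Finset.ssubset_iff_subset_ne.2 ⟨h, h3⟩)
        · rintro (h | h)
          · exact h.1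
          · rw [h]
      have h3 : Disjoint (Finset.univ.filter (fun t => q t ⊂ w))
          (Finset.univ.filter (fun t => q t = w)) := by
        rw [Finset.disjoint_filter]
        intro t _ h4 h5
        rw [h5] at h4
        exact lt_irrefl _ h4
      have h4 : ∑ t ∈ Finset.univ.filter (fun t => q t ⊂ w), c t * R t = 0 := by
        rw [← Finset.sum_fiberwise_of_maps_to (g := q) (t := w.ssubsets)
          (fun t ht => Finset.mem_ssubsets.2 (Finset.mem_filter.1 ht).2)]
        refine Finset.sum_eq_zero fun w' hw' => ?_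
        rw [Finset.mem_ssubsets] at hw'
        rw [← ih w' hw', Finset.filter_filter]
        refine Finset.sum_congr ?_ fun _ _ => rfl
        ext t
        simp only [Finset.mem_filter, Finset.mem_univ, true_and]
        exact ⟨fun h => h.2, fun h => ⟨h ▸ hw', h⟩⟩
      rw [h2, Finset.sum_union h3, h4, zero_add] at h1
      exact h1
  have h5 : ∀ t : Finset E, (if q t = u then c t else 0) * mon t x =
      (if q t = u then c t * R t else 0) * ∏ v ∈ u, x (z v) := by
    intro t
    by_cases h : q t = u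
    · rw [if_pos h, if_pos h, hsplit x t (fun _ _ => rfl), h, mul_assoc]
    · rw [if_neg h, if_neg h, zero_mul, zero_mul]
  rw [Finset.sum_congr rfl fun t _ => h5 t, ← Finset.sum_mul, ← Finset.sum_filter, hF u, zero_mul]

end H29RE
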