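import Pool.Agent.H29.RE.Mon
import Pool.Agent.H29.RE.NF
import Pool.Agent.H29.RE.Clo
import Pool.Agent.H29.RE.Loc
import Pool.Agent.H29.RE.Sup

/-!
ROW AR (the reduction operator; about 150 lines).  Use only the statements of the imported rows.
`D` is the maximal degree, `|T0| ≤ w`, `D + w ≤ β`, `2 (k + 1) β ≤ R`.
PROOF. Take `rank` (`rank_exists`), `Cl` (`clo_exists`), and for `J` the normal form `NF J` of `VJ B J` (`nf_exists`). For a monomial `t` put `T t = act z T0 t` (if `|t| ≤ D` then `|T t| ≤ D + w`, `2 |T t| ≤ R`; note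
`(univ.filter (z v ∈ t)).card ≤ t.card` as `z` is injective) and `C t = Cl (T t)`, `|C t| ≤ D + w ≤ β`.
`Rc` := the linear map on coefficient vectors with `Rc e_t = NF (C t) e_t` for all `t`
(`Rc c = ∑ t, c t • NF (C t) (Pi.single t 1)`), and the result `Rop = ev ∘ Rc ∘ ev⁻¹` (`LinearEquiv.ofBijective ev`).
(L) LOCALITY: if `|t| ≤ D`, `C t ⊆ J`, `|J| ≤ R` then `NF (C t) e_t = NF J e_t`. Indeed let `d = NF (C t) e_t`; `e_t - d ∈ VJ (C t) ≤ VJ J`. Let `d t' ≠ 0`: then `|t'| ≤ |t| ≤ D` (rank) and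
`act z T0 t' ⊆ T t ∪ (C t).biUnion S` (`nf_supp`), so `C t' ⊆ C t` by (2) of `clo_exists`; `t'` is irreducible for `VJ (C t)`, hence for `VJ (C t')` (`loc_down`), hence for `VJ J` (`loc_up` with `J0 = C t'`, and
`Dom, ρ` of (3) of `clo_exists` for `C t' ⊆ J`). So `d = NF J e_t` by `nf_unique`.
(a) `f ∈ Lc β D B` ⇒ `Rop f = 0`: `Lc` is a supremum (`Submodule.iSup_induction` or show `Lc ≤ ker Rop` by `iSup_le`); let `f = ev c` vanish on `B ∩ Sat J`, `|J| ≤ β`, `c` supported on card ≤ D (`RM_mem_iff`, `ev_inj`).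
`c = ∑ u, c_u` (`c_u` of `group_mem`; sum over all `u : Finset I`), so it is enough that `Rc c_u = 0`. If no `t` with `c t ≠ 0` has `act z ∅ t \ (T0 ∪ S(J)) = u` then `c_u = 0`. Otherwise `|u| ≤ D`; put
`T* = u ∪ T0 ∪ S(J)` (`|T*| ≤ D + w + k β ≤ (k+1) β`, `2 |T*| ≤ R`), `J* = J ∪ Cl T*` (`|J*| ≤ β + (k+1) β ≤ R`; here `(k + 2) ≤ 2 (k + 1)`). Each `t` with `c_u t ≠ 0` has `T t ⊆ T*`, so `C t ⊆ Cl T* ⊆ J*` by (2), and by (L)
`Rc c_u = ∑ c_u t • NF (J*) e_t = NF (J*) c_u = 0` since `c_u ∈ VJ J ≤ VJ J*`.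
(b) `d ≤ D`, `f = ev c`, `c` supported on card ≤ d: `f - Rop f = ∑ c t • ev (e_t - NF (C t) e_t)`, each term has degree ≤ |t| ≤ d and vanishes on `B ∩ Sat (C t)`, `|C t| ≤ β`.
(c) `B = univ`, `T0 = ∅`, `t` has no active variable: `T t = ∅`, `C t = ∅` (card ≤ 0), `VJ univ ∅ = ⊥` by `ev_inj` (`Sat ∅ = univ`), so `NF ∅ e_t = e_t`; `ev e_t = mon t`.
-/

set_option autoImplicit false
open scoped Classical

namespace H29RE

open H96RX

private theorem AR_sum {E M : Type} [Fintype E] [AddCommGroup M] [Module (ZMod 2) M]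
    (L : (Finset E → ZMod 2) →ₗ[ZMod 2] M) (c : Finset E → ZMod 2) :
    L c = ∑ t : Finset E, c t • L (Pi.single t 1) := by
  have h : c = ∑ t : Finset E, c t • (Pi.single t 1 : Finset E → ZMod 2) := by
    funext u
    rw [Finset.sum_apply, Finset.sum_eq_single u]
    · rw [Pi.smul_apply, Pi.single_eq_same, smul_eq_mul, mul_one]
    · intro b _ hb
      rw [Pi.smul_apply, Pi.single_eq_of_ne (Ne.symm hb), smul_zero]
    · intro hu
      exact absurd (Finset.mem_univ u) hu
  conv_lhs => rw [h]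
  rw [map_sum]
  exact Finset.sum_congr rfl fun t _ => L.map_smul _ _

private theorem AR_act_card {I E : Type} [Fintype I] (z : I → E) (hz : Function.Injective z)
    (T0 : Finset I) (t : Finset E) : (act z T0 t).card ≤ t.card + T0.card := by
  unfold act
  refine (Finset.card_union_le _ _).trans (Nat.add_le_add_right ?_ _)
  refine Finset.card_le_card_of_injOn z ?_ (fun a _ b _ h => hz h)
  intro v hv
  exact (Finset.mem_filter.1 hv).2

private theorem AR_mem_act {I E : Type} [Fintype I] (z : I → E) (T0 : Finset I) (t : Finset E) (v : I) :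
    v ∈ act z T0 t ↔ z v ∈ t ∨ v ∈ T0 := by
  unfold act
  rw [Finset.mem_union, Finset.mem_filter]
  simp

private theorem AR_ev_single {E : Type} [Fintype E] (t : Finset E) : ev (Pi.single t 1) = mon t := by
  funext x
  change ∑ t' : Finset E, (Pi.single t 1 : Finset E → ZMod 2) t' * mon t' x = mon t x
  rw [Finset.sum_eq_single t]
  · rw [Pi.single_eq_same, one_mul]
  · intro b _ hb
    rw [Pi.single_eq_of_ne hb, zero_mul]
  · intro hu
    exact absurd (Finset.mem_univ t) hu

theorem ar {ι I E : Type} [Fintype ι] [Fintype I] [Fintype E] (S : ι → Finset I) (σ : ι → I → ZMod 2) (z : I → E)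
    (hz : Function.Injective z) {k R β D w : ℕ} (hk : ∀ j, (S j).card ≤ k)
    (hexp : ∀ J : Finset ι, J.card ≤ R → J.card ≤ (bd S J).card) (hβ : D + w ≤ β) (hR : 2 * (k + 1) * β ≤ R)
    (B : Set (E → ZMod 2)) (T0 : Finset I) (hT0 : T0.card ≤ w)
    (hB : ∀ x y : E → ZMod 2, (∀ v ∈ T0, x (z v) = y (z v)) → (∀ e, (∀ v, z v ≠ e) → x e = y e) → x ∈ B → y ∈ B) :
    ∃ Rop : ((E → ZMod 2) → ZMod 2) →ₗ[ZMod 2] ((E → ZMod 2) → ZMod 2),
      (∀ f ∈ Lc S σ z β D B, Rop f = 0) ∧
      (∀ d ≤ D, ∀ f ∈ RM (E → ZMod 2) d, f - Rop f ∈ Lc S σ z β d B) ∧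
      (B = Set.univ → T0 = ∅ → ∀ t : Finset E, (∀ v, z v ∉ t) → t.card ≤ D → Rop (mon t) = mon t) := by
  obtain ⟨rank, hr, hrank⟩ := rank_exists E
  obtain ⟨Cl, hCl⟩ := clo_exists S σ R hexp
  have hNF := fun J : Finset ι => nf_exists rank hr (VJ S σ z B J)
  choose NF hN1 hN2 hN3 hN4 using hNF
  have hk1 : (k + 1) * β * 2 ≤ R := by
    refine le_trans (le_of_eq ?_) hR
    ring
  have hβR : 2 * β ≤ R := by
    refine le_trans ?_ hR
    have h1 : 1 ≤ k + 1 := Nat.le_add_left 1 k
    calc 2 * β = 2 * 1 * β := by ring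
      _ ≤ 2 * (k + 1) * β := Nat.mul_le_mul_right _ (Nat.mul_le_mul_left _ h1)
  have hactc : ∀ t : Finset E, t.card ≤ D → (act z T0 t).card ≤ β := fun t ht =>
    ((AR_act_card z hz T0 t).trans (Nat.add_le_add ht hT0)).trans hβ
  have hact : ∀ t : Finset E, t.card ≤ D → 2 * (act z T0 t).card ≤ R := fun t ht =>
    (Nat.mul_le_mul_left 2 (hactc t ht)).trans hβR
  have hC : ∀ t : Finset E, t.card ≤ D → (Cl (act z T0 t)).card ≤ β := fun t ht =>
    ((hCl _ (hact t ht)).1).trans (hactc t ht)
  -- support of the normal form of a monomial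
  have hrk : ∀ (J : Finset ι) (t t' : Finset E), NF J (Pi.single t 1) t' ≠ 0 → t'.card ≤ t.card := by
    intro J t t' h
    obtain ⟨t'', h1, h2⟩ := hN4 J _ t' h
    have h3 : t'' = t := by
      by_contra hne
      exact h2 (Pi.single_eq_of_ne hne 1)
    subst h3
    by_contra hlt
    exact absurd (hrank t' t'' (not_le.1 hlt)) (not_lt.2 h1)
  -- locality
  have hloc : ∀ t : Finset E, t.card ≤ D → ∀ J : Finset ι, Cl (act z T0 t) ⊆ J → J.card ≤ R →
      NF (Cl (act z T0 t)) (Pi.single t 1) = NF J (Pi.single t 1) := by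
    intro t ht J hJ hJR
    refine nf_unique rank (VJ S σ z B J) (Pi.single t 1) _ _ (VJ_mono S σ z B hJ (hN1 _ _)) (hN1 _ _)
      ?_ (hN3 _ _)
    intro t' ht'
    have h1 := hN3 _ _ t' ht'
    have h2 : t'.card ≤ D := (hrk _ _ _ ht').trans ht
    have h3 := nf_supp rank S σ z hz B T0 hB (Cl (act z T0 t)) t _ (hN1 _ _) (hN3 _ _) t' ht'
    have h4 : Cl (act z T0 t') ⊆ Cl (act z T0 t) := (hCl _ (hact t ht)).2.1 _ (hact t' h2) h3
    have h5 := loc_down rank S σ z B h4 t' h1
    obtain ⟨Dom, ρ, hD1, hD2⟩ := (hCl _ (hact t' h2)).2.2 J (h4.trans hJ) hJR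
    exact loc_up rank hrank S σ z hz B T0 hB (Cl (act z T0 t')) J Dom ρ t' hD1 hD2 h5
  -- the operator
  obtain ⟨Rc, hRc⟩ : ∃ Rc : (Finset E → ZMod 2) →ₗ[ZMod 2] (Finset E → ZMod 2),
      ∀ c, Rc c = ∑ t : Finset E, c t • NF (Cl (act z T0 t)) (Pi.single t 1) := by
    refine ⟨∑ t : Finset E, (LinearMap.proj t).smulRight (NF (Cl (act z T0 t)) (Pi.single t 1)), ?_⟩
    intro c
    rw [LinearMap.sum_apply]
    rfl
  have hRe : ∀ t, Rc (Pi.single t 1) = NF (Cl (act z T0 t)) (Pi.single t 1) := by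
    intro t
    rw [hRc, Finset.sum_eq_single t]
    · rw [Pi.single_eq_same, one_smul]
    · intro b _ hb
      rw [Pi.single_eq_of_ne hb, zero_smul]
    · intro hu
      exact absurd (Finset.mem_univ t) hu
  obtain ⟨Rop, hRop⟩ : ∃ Rop : ((E → ZMod 2) → ZMod 2) →ₗ[ZMod 2] ((E → ZMod 2) → ZMod 2),
      ∀ c, Rop (ev c) = ev (Rc c) := by
    refine ⟨(ev.comp Rc).comp
      (LinearEquiv.ofBijective (ev (E := E)) ⟨ev_inj, ev_surj⟩).symm.toLinearMap, ?_⟩
    intro c
    have h1 : (LinearEquiv.ofBijective (ev (E := E)) ⟨ev_inj, ev_surj⟩).symm (ev c) = c :=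
      (LinearEquiv.ofBijective (ev (E := E)) ⟨ev_inj, ev_surj⟩).symm_apply_apply c
    change ev (Rc ((LinearEquiv.ofBijective (ev (E := E)) ⟨ev_inj, ev_surj⟩).symm (ev c))) = _
    rw [h1]
  refine ⟨Rop, ?_, ?_, ?_⟩
  · -- (a)
    have hle : Lc S σ z β D B ≤ LinearMap.ker Rop := by
      unfold Lc
      refine iSup_le ?_
      rintro ⟨J, hJ⟩ f ⟨hf1, hf2⟩
      obtain ⟨c, hc1, rfl⟩ := (RM_mem_iff D f).1 hf1
      have hcV : c ∈ VJ S σ z B J := hf2
      rw [LinearMap.mem_ker, hRop]
      obtain ⟨cu, hcu⟩ : ∃ cu : Finset I → Finset E → ZMod 2, cu = fun u t =>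
        if act z ∅ t \ (T0 ∪ J.biUnion S) = u then c t else 0 := ⟨_, rfl⟩
      have hsum : c = ∑ u : Finset I, cu u := by
        funext t
        rw [Finset.sum_apply, hcu, Finset.sum_ite_eq]
        rw [if_pos (Finset.mem_univ _)]
      have hz0 : ∀ u, Rc (cu u) = 0 := by
        intro u
        have hsup : ∀ t, cu u t ≠ 0 → act z ∅ t \ (T0 ∪ J.biUnion S) = u ∧ t.card ≤ D := by
          intro t ht
          rw [hcu] at ht
          by_cases h : act z ∅ t \ (T0 ∪ J.biUnion S) = u
          · refine ⟨h, ?_⟩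
            by_contra hlt
            apply ht
            change (if act z ∅ t \ (T0 ∪ J.biUnion S) = u then c t else 0) = 0
            rw [if_pos h]
            exact hc1 t (not_le.1 hlt)
          · exact absurd (if_neg h) ht
        by_cases hu : u.card ≤ D
        · obtain ⟨Ts, hTs⟩ : ∃ Ts : Finset I, Ts = u ∪ T0 ∪ J.biUnion S := ⟨_, rfl⟩
          have hTc : Ts.card ≤ (k + 1) * β := by
            rw [hTs]
            have h1 : (J.biUnion S).card ≤ β * k :=
              (Finset.card_biUnion_le_card_mul J S k fun j _ => hk j).trans (Nat.mul_le_mul_right k hJ)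
            have h2 : (u ∪ T0).card ≤ β :=
              ((Finset.card_union_le _ _).trans (Nat.add_le_add hu hT0)).trans hβ
            calc (u ∪ T0 ∪ J.biUnion S).card ≤ (u ∪ T0).card + (J.biUnion S).card :=
                  Finset.card_union_le _ _
              _ ≤ β + β * k := Nat.add_le_add h2 h1
              _ = (k + 1) * β := by ring
          have hT2 : 2 * Ts.card ≤ R := by
            refine le_trans (Nat.mul_le_mul_left 2 hTc) ?_
            rw [mul_comm]
            exact hk1
          have hCT := hCl Ts hT2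
          have hJs : (J ∪ Cl Ts).card ≤ R := by
            calc (J ∪ Cl Ts).card ≤ J.card + (Cl Ts).card := Finset.card_union_le _ _
              _ ≤ β + (k + 1) * β := Nat.add_le_add hJ (hCT.1.trans hTc)
              _ ≤ (k + 1) * β + (k + 1) * β := by
                  refine Nat.add_le_add_right ?_ _
                  calc β = 1 * β := by ring
                    _ ≤ (k + 1) * β := Nat.mul_le_mul_right _ (Nat.le_add_left 1 k)
              _ = (k + 1) * β * 2 := by ring
              _ ≤ R := hk1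
          have hNFu : Rc (cu u) = NF (J ∪ Cl Ts) (cu u) := by
            rw [hRc, AR_sum (NF (J ∪ Cl Ts)) (cu u)]
            refine Finset.sum_congr rfl fun t _ => ?_
            by_cases ht : cu u t = 0
            · rw [ht, zero_smul, zero_smul]
            · obtain ⟨h1, h2⟩ := hsup t ht
              have h3 : act z T0 t ⊆ Ts ∪ (Cl Ts).biUnion S := by
                refine Finset.Subset.trans ?_ Finset.subset_union_left
                intro v hv
                rw [hTs, Finset.mem_union, Finset.mem_union]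
                rcases (AR_mem_act z T0 t v).1 hv with h | h
                · by_cases h4 : v ∈ T0 ∪ J.biUnion S
                  · rcases Finset.mem_union.1 h4 with h5 | h5
                    · exact Or.inl (Or.inr h5)
                    · exact Or.inr h5
                  · refine Or.inl (Or.inl ?_)
                    rw [← h1, Finset.mem_sdiff]
                    exact ⟨(AR_mem_act z ∅ t v).2 (Or.inl h), h4⟩
                · exact Or.inl (Or.inr h)
              have h4 : Cl (act z T0 t) ⊆ Cl Ts := hCT.2.1 _ (hact t h2) h3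
              rw [hloc t h2 (J ∪ Cl Ts) (h4.trans Finset.subset_union_right) hJs]
          rw [hNFu]
          refine hN2 _ _ ?_
          refine VJ_mono S σ z B (Finset.subset_union_left (s₁ := J) (s₂ := Cl Ts)) ?_
          rw [hcu]
          exact group_mem S σ z hz B T0 hB J c hcV u
        · have h0 : cu u = 0 := by
            funext t
            by_contra ht
            obtain ⟨h1, h2⟩ := hsup t ht
            apply hu
            rw [← h1]
            refine (Finset.card_le_card Finset.sdiff_subset).trans ?_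
            refine (AR_act_card z hz ∅ t).trans ?_
            rw [Finset.card_empty, add_zero]
            exact h2
          rw [h0, map_zero]
      rw [hsum, map_sum, Finset.sum_eq_zero fun u _ => hz0 u, map_zero]
    intro f hf
    exact hle hf
  · -- (b)
    intro d hd f hf
    obtain ⟨c, hc1, rfl⟩ := (RM_mem_iff d f).1 hf
    have h1 : ev c - Rop (ev c) =
        ∑ t : Finset E, c t • ev (Pi.single t 1 - NF (Cl (act z T0 t)) (Pi.single t 1)) := by
      rw [hRop, AR_sum ev c, hRc, map_sum, ← Finset.sum_sub_distrib]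
      refine Finset.sum_congr rfl fun t _ => ?_
      rw [map_smul, map_sub, smul_sub]
    rw [h1]
    refine Submodule.sum_mem _ fun t _ => ?_
    by_cases ht : c t = 0
    · rw [ht, zero_smul]
      exact Submodule.zero_mem _
    · refine Submodule.smul_mem _ _ ?_
      have htd : t.card ≤ d := by
        by_contra hlt
        exact ht (hc1 t (not_le.1 hlt))
      refine Submodule.mem_iSup_of_mem ⟨Cl (act z T0 t), hC t (htd.trans hd)⟩ ⟨?_, hN1 (Cl (act z T0 t)) _⟩
      refine (RM_mem_iff d _).2 ⟨_, ?_, rfl⟩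
      intro t' ht'
      rw [Pi.sub_apply]
      have h2 : t' ≠ t := by
        rintro rfl
        omega
      rw [Pi.single_eq_of_ne h2, zero_sub, neg_eq_zero]
      by_contra h3
      have h4 := hrk _ _ _ h3
      omega
  · -- (c)
    intro hBu hT0' t htz htD
    have hact0 : act z T0 t = ∅ := by
      rw [Finset.eq_empty_iff_forall_notMem]
      intro v hv
      rcases (AR_mem_act z T0 t v).1 hv with h | h
      · exact htz v h
      · rw [hT0'] at h
        exact absurd h (Finset.notMem_empty v)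
    have hCl0 : Cl (act z T0 t) = ∅ := by
      have h1 := (hCl _ (hact t htD)).1
      rw [hact0, Finset.card_empty] at h1
      rw [hact0]
      exact Finset.card_eq_zero.1 (Nat.le_zero.1 h1)
    rw [← AR_ev_single t, hRop, hRe]
    have h2 : (Pi.single t 1 : Finset E → ZMod 2) - NF (Cl (act z T0 t)) (Pi.single t 1) = 0 := by
      apply ev_inj
      rw [map_zero]
      funext x
      have h3 := hN1 (Cl (act z T0 t)) (Pi.single t 1)
      refine h3 x ⟨?_, ?_⟩
      · rw [hBu]
        exact Set.mem_univ x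
      · intro j hj
        rw [hCl0] at hj
        exact absurd hj (Finset.notMem_empty j)
    rw [← sub_eq_zero.1 h2]

end H29RE
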