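import Pool.Agent.H29.RE.Defs
import Pool.Agent.H96.RX.Prod

/-!
ROW Mon (monomials form a basis adapted to the degree; about 120 lines).  PROOF.
`ev_inj`: if `ev c = 0`, `c ≠ 0`: take `t` with `c t ≠ 0` of minimal card (`Finset.exists_min_image` over the filter `c t ≠ 0`); at the point
`x = indicator of t` (`x e = if e ∈ t then 1 else 0`) `mon t' x = 1` iff `t' ⊆ t`, so `ev c x = ∑_{t' ⊆ t} c t' = c t` (the proper subsets have smaller card).
`ev_surj`: `ev` is an injective linear map between spaces of the same finite dimension (`2 ^ |E|` both: `LinearMap.injective_iff_surjective_of_finrank_eq_finrank`,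
`Module.finrank_fintype_fun_eq_card`, `Fintype.card_finset`, `Fintype.card_pi`, `ZMod.card`).
`mon_mem`: `mon t` is a product of `t.card` functions of `Aff` (coordinate functions), `RM D = Aff ^ D`; induction on `t` (`Finset.induction_on`,
`mon (insert e t) = (coordinate e) * mon t`, `RM (D+1) = RM D * Aff` is `pow_succ`, `Submodule.mul_mem_mul`; `RM_succ_le` of H96RX.Prod for monotonicity in `D`).
`RM_mem_iff` (→): induction on `D`: `RM 0`: constants = `c • mon ∅` (`mem_RM_zero`). `RM (D+1) = RM D * Aff` (`Submodule.mul_le` / `Submodule.mul_induction_on`): the set of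
functions `ev c` with `c t = 0` for `t.card > D+1` is a submodule (take it as the image `Submodule.map ev` of a submodule) and it contains `f * a` for `f = ev c`, `a` affine:
`a = ∑ e, a_e x_e + const`, `x_e * mon t = mon (insert e t)` because `x e * x e = x e` in `ZMod 2`.
-/

set_option autoImplicit false
open scoped Classical

namespace H29RE

open H96RX

theorem ev_inj {E : Type} [Fintype E] : Function.Injective (ev (E := E)) := by
  sorry

theorem ev_surj {E : Type} [Fintype E] : Function.Surjective (ev (E := E)) := by
  sorry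

theorem mon_mem {E : Type} [Fintype E] (t : Finset E) (D : ℕ) (h : t.card ≤ D) : mon t ∈ RM (E → ZMod 2) D := by
  sorry

theorem RM_mem_iff {E : Type} [Fintype E] (D : ℕ) (f : (E → ZMod 2) → ZMod 2) :
    f ∈ RM (E → ZMod 2) D ↔ ∃ c : Finset E → ZMod 2, (∀ t, D < t.card → c t = 0) ∧ ev c = f := by
  sorry

theorem RM_mono {E : Type} [Fintype E] {d D : ℕ} (h : d ≤ D) : RM (E → ZMod 2) d ≤ RM (E → ZMod 2) D := by
  sorry

end H29RE
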