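import Pool.Agent.H29.RE.Defs
import Pool.Agent.H96.RX.Prod

/-!
ROW Mul (degrees under products and affine substitutions; about 60 lines).  PROOF.
`RM_mul_aff`: `RM (D+1) = RM D * Aff` (`pow_succ`), `Submodule.mul_mem_mul`.
`RM_comp`: `fun f => f ∘ g` is an algebra homomorphism `(V' → ZMod 2) →ₐ (V → ZMod 2)` (e.g. `AlgHom.compLeft`‑like; build it by hand or use `Pi`), it maps `Aff V'` into `Aff V`
(`φ ∘ L`, constant `φ b + c`), and `Submodule.map` of an algebra homomorphism commutes with powers (`Submodule.map_pow`), `Submodule.pow_le_pow_left`. (See the private lemmas `Img_aff`, `Img_rm` of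
Pool/Agent/H96/RX/Img.lean: same argument; there `L` is injective, which is not needed for the inclusion.)
-/

set_option autoImplicit false
open scoped Classical

namespace H29RE

open H96RX

theorem RM_mul_aff {V : Type} [AddCommGroup V] [Module (ZMod 2) V] (D : ℕ) {f l : V → ZMod 2} (hf : f ∈ RM V D)
    (hl : l ∈ Aff V) : (fun x => l x * f x) ∈ RM V (D + 1) := by
  sorry

theorem RM_comp {V V' : Type} [AddCommGroup V] [Module (ZMod 2) V] [AddCommGroup V'] [Module (ZMod 2) V'] (D : ℕ)
    (L : V →ₗ[ZMod 2] V') (b : V') {f : V' → ZMod 2} (hf : f ∈ RM V' D) : (fun x => f (L x + b)) ∈ RM V D := by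
  sorry

end H29RE
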